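import Pool.Agent.Helper861_FN.Neg
import Pool.Agent.Helper861_FN.Pos

/-!
# An F-noetherian ring which is not directed F-noetherian

The answer to Q1 of MP_56d54d_al is no. Let `K` be the field of rational functions over `ℚ` in the
variables `x q`, `q ∈ ℤ`, let `σ` be the shift `x q ↦ x (q + 1)`, and let `D_q` be the partial
derivatives. Put `A = K ⊕ N` and `E = K ⊕ M` (trivial extensions), where `N` has the `K`-basis
`e (q, k)`, `q ∈ ℤ`, `k ∈ ℕ`, and `M` has the `K`-basis `e q`, `q ∈ ℤ`; let `φ : K → E` be the ring
homomorphism `φ a = a + ∑ D_q(a) e q`. For a function `α : ℤ → ℕ` let `π_α : A → E` be the identity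
on `K` and send `e (q, k)` to `e q` if `k = α q` and to `0` otherwise. The ring is the trivial
extension `R = A ⊕ W` of `A` by the bimodule `W = E_* ⊕ ⨁_α E_α`, where `E_α` is `E` with left
action through `π_α` and right action through `A → K → E`, the last map being `φ`, and `E_*` is `E`
with left action through `A → K → E` and right action through `A → K → K → E`, the middle map
being `σ`.

* `Pos.lean`: every finite subset of `R` lies in a subring which contains a copy of the field `K`
  and is a finite-dimensional left and right vector space over it.
* `Neg.lean`: let `S` be a left noetherian subring containing `x 0 ∈ A` and `1 ∈ E_*`, and let `B` be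
  the image of `S` in `K`. Each `σ b`, `b ∈ B`, is integral over `B`, so `D_j` does not vanish
  on `B` for `j ≥ 0`. Choose `s_j = (a_j + n_j, w_j) ∈ S` with `D_j(a_j) ≠ 0`, and choose `α` such that
  the coefficient of `n_j` at `(j, α j)` is `0` for all `j ≥ 0`. Then no left noetherian subring
  contains `S` and `1 ∈ E_α`: the commutators of the `s_j` and `1 ∈ E_α` lie in the part `M` of
  `E_α` and have coefficient `- D_j(a_j) ≠ 0` at `e j`.
-/

set_option autoImplicit false

namespace Pool.Agent.Results.MP_56d54d_al.NotDirected

open Pool.Agent.Helper861_FN

/-- There is a ring which is F-noetherian but not directed F-noetherian. -/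
theorem result : ∃ (R : Type) (_ : Ring R), FNoetherian R ∧ ¬ DirectedFNoetherian R :=
  ⟨Helper861_FN.R, inferInstance, fNoetherian, not_directed⟩

end Pool.Agent.Results.MP_56d54d_al.NotDirected
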